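import Pool.Agent.Lib.MP_00ece3_co.EX.Asm

/-!
# The largest orchard crossing number of a planar graph on `n` vertices, for all large `n`
-/

namespace Pool.Agent.Results.MP_00ece3_co.ExactFormula

open Pool.Agent.Lib.MP_00ece3_co

/-- `K_2 + P_{n-2}`: the vertices `0` and `1` are adjacent to each other and to all other vertices,
the vertices `2, …, n-1` form a path. -/
def K2P (n : ℕ) : SimpleGraph (Fin n) where
  Adj x y := x ≠ y ∧ (x.val < 2 ∨ y.val < 2 ∨ x.val + 1 = y.val ∨ y.val + 1 = x.val)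
  symm := ⟨by
    rintro x y ⟨h, h'⟩
    exact ⟨h.symm, by tauto⟩⟩
  loopless := ⟨fun x h => h.1 rfl⟩

theorem K2P_eq (n : ℕ) : K2P n = EX.Kg n := rfl

/-- For `q ≥ 6` the planar graphs `K_2 + P_{n-2}` on `n = 2q+2` and `n = 2q+3` vertices have orchard
crossing number `2q³+3q-1` and `2q³+3q²+5q-1`, so `M(n)` is at least this number; and for all large
`q` these are the exact values of `M(2q+2)` and `M(2q+3)`. -/
theorem result : ∃ q₀ : ℕ, ∀ q : ℕ, 6 ≤ q →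
    (Planar (K2P (2 * q + 2)) ∧ OCN (K2P (2 * q + 2)) = 2 * q ^ 3 + 3 * q - 1 ∧
      2 * q ^ 3 + 3 * q - 1 ≤ M (2 * q + 2)) ∧
    (Planar (K2P (2 * q + 3)) ∧ OCN (K2P (2 * q + 3)) = 2 * q ^ 3 + 3 * q ^ 2 + 5 * q - 1 ∧
      2 * q ^ 3 + 3 * q ^ 2 + 5 * q - 1 ≤ M (2 * q + 3)) ∧
    (q₀ ≤ q → M (2 * q + 2) = 2 * q ^ 3 + 3 * q - 1 ∧
      M (2 * q + 3) = 2 * q ^ 3 + 3 * q ^ 2 + 5 * q - 1) := by
  obtain ⟨m₀, hm₀⟩ := EX.aFin
  refine ⟨m₀, fun q hq => ?_⟩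
  rw [K2P_eq, K2P_eq]
  refine ⟨⟨EX.aKgPlanar _, ?_, ?_⟩, ⟨EX.aKgPlanar _, ?_, ?_⟩, fun hq0 => ⟨?_, ?_⟩⟩
  · have h := EX.ocnK EX.aCrK EX.aLowOdd EX.aLowEven EX.aUpK (2 * q) (by omega)
    rw [EX.F4_even q (by omega)] at h
    omega
  · have h := EX.aLowM (2 * q) (by omega)
    rw [EX.F4_even q (by omega)] at h
    omega
  · have h := EX.ocnK EX.aCrK EX.aLowOdd EX.aLowEven EX.aUpK (2 * q + 1) (by omega)
    rw [EX.F4_odd q (by omega)] at h
    have e : 2 * q + 1 + 2 = 2 * q + 3 := by omega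
    rw [e] at h
    omega
  · have h := EX.aLowM (2 * q + 1) (by omega)
    rw [EX.F4_odd q (by omega)] at h
    have e : 2 * q + 1 + 2 = 2 * q + 3 := by omega
    rw [e] at h
    omega
  · have h := hm₀ (2 * q) (by omega)
    rw [EX.F4_even q (by omega)] at h
    omega
  · have h := hm₀ (2 * q + 1) (by omega)
    rw [EX.F4_odd q (by omega)] at h
    have e : 2 * q + 1 + 2 = 2 * q + 3 := by omega
    rw [e] at h
    omega

end Pool.Agent.Results.MP_00ece3_co.ExactFormula
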